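import Pool.Agent.TH439.PI4

/-!
# The unramified period-index bound for products with abelian varieties

Let `n = p ^ e` be a prime power, `L` a field with a primitive `n`-th root of unity, `U` a group of
Brauer classes of `L` whose elements have index dividing `N`, `H` a subgroup of `Lˣ` all of whose
symbols of degree `n` are in `U`, and `K` an extension of `L` with blocks `x i : Fin (2 * g i) → Kˣ`,
`g i < p`, each with a nondegenerate relation between the symbols of its elements (`Polarized`). Then
all classes generated by the restrictions of the elements of `U` and by the symbols with entries in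
the group generated by `H` and the blocks have index dividing `n ^ (∑ i, g i) * N`.

For varieties: `K` is the function field of `Y × A_1 × ... × A_s` and `L` that of the smooth projective
variety `Y`, `U` is the group of all classes in `Br(Y)` killed by `n`, `H` the group of all functions
on `Y` whose divisor is divisible by `n`, and the `A_i` are abelian varieties of dimension `g i < p`
with a polarization of degree prime to `p ≠ char k`. The functions `x i` form a basis of
`H^1(A_i, μ_n)`, and the matrix is the Riemann form of the polarization (divided into an upper and a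
lower triangular part): the class of a divisor vanishes in the Brauer group. By the Kummer sequence and
the Künneth formula all unramified classes killed by `n` are generated as above. So if `dim Y` is
positive and the classes in `Br(Y)` killed by `n` have index dividing `n ^ (dim Y - 1)`, then the same
holds for `Y × A_1 × ... × A_s`.
-/

set_option autoImplicit false
set_option linter.all false

open scoped TensorProduct

namespace Pool.Agent.Results.MP_43d240_ag.AbelianFactors

open Pool.Agent.Helper18.Br Pool.Agent.H552R3.SymBr Pool.Agent.H552R3.SymPred Pool.Agent.TH439.PI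

universe u

/-- The block `x` of elements of `Kˣ` has a nondegenerate relation: for an integral matrix `E` with
`det (E - Eᵀ)` prime to `p`, the product of the classes of the symbols `(x j, x k)` of degree `n` with
exponents `E j k` is the product of the classes of the symbols `(x j, a j)`, `a j` in `H`, and of the
restriction of a class `β` in `U`. -/
def Polarized {L K : Type u} [Field L] [Field K] [Algebra L K] (p n : ℕ) (ζ : L)
    (U : Subgroup (BrauerGroup.{u, u} L)) (H : Subgroup Lˣ) {m : ℕ} (x : Fin m → Kˣ) : Prop :=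
  ∃ (E : Matrix (Fin m) (Fin m) ℤ) (c : Fin m → Fin m → BrauerGroup.{u, u} K) (a : Fin m → Lˣ)
    (d : Fin m → BrauerGroup.{u, u} K) (β : BrauerGroup.{u, u} L),
    ¬ (p : ℤ) ∣ (E - E.transpose).det ∧
    (∀ j k, IsSym n (algebraMap L K ζ) (x j) (x k) (c j k)) ∧ (∀ j, a j ∈ H) ∧
    (∀ j, IsSym n (algebraMap L K ζ) (x j) (Units.map (algebraMap L K : L →* K) (a j)) (d j)) ∧
    β ∈ U ∧ ∏ j, ∏ k, c j k ^ E j k = (∏ j, d j) * res K β

/-- Let `n = p ^ e`, `p` a prime, let `L` be a field with a primitive `n`-th root of unity, `U` a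
subgroup of `Br(L)` all of whose elements have index dividing `N`, `H` a subgroup of `Lˣ` containing
`-1` such that `U` contains the classes of all symbols of degree `n` with entries in `H`, and `K` an
extension field of `L`. Let `x i`, `i < s`, be blocks of `2 g i` elements of `Kˣ` with `g i < p`
which are `Polarized`, and let `G` be the group generated by `H` and all their elements. Then every
class in the subgroup of `Br(K)` generated by the restrictions of the elements of `U` and by the
classes of all symbols of degree `n` with entries in `G` has index dividing `n ^ (∑ i, g i) * N`. -/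
theorem result {L K : Type u} [Field L] [Field K] [Algebra L K] (p e : ℕ) (hp : p.Prime)
    (ζ : L) (hζ : IsPrimitiveRoot ζ (p ^ e)) (N : ℕ) (hN : 0 < N)
    (U : Subgroup (BrauerGroup.{u, u} L)) (hU : ∀ β ∈ U, IndDvd β N)
    (H : Subgroup Lˣ) (hneg : -1 ∈ H)
    (hH : ∀ a ∈ H, ∀ b ∈ H, ∀ β, IsSym (p ^ e) ζ a b β → β ∈ U)
    (s : ℕ) (g : Fin s → ℕ) (hg : ∀ i, g i < p) (x : ∀ i, Fin (2 * g i) → Kˣ)
    (hx : ∀ i, Polarized p (p ^ e) ζ U H (x i))
    (G : Subgroup Kˣ) (hG : G = Subgroup.closure
      ({y | ∃ a ∈ H, y = Units.map (algebraMap L K : L →* K) a} ∪ ⋃ i, Set.range (x i)))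
    (α : BrauerGroup.{u, u} K)
    (hα : α ∈ Subgroup.closure ({γ | ∃ β ∈ U, γ = res K β} ∪
      {γ | ∃ y ∈ G, ∃ z ∈ G, IsSym (p ^ e) (algebraMap L K ζ) y z γ})) :
    IndDvd α ((p ^ e) ^ (∑ i, g i) * N) := by
  have hn : 0 < p ^ e := pow_pos hp.pos e
  have hζK := rootK K hζ
  let V : Subgroup (BrauerGroup.{u, u} K) := U.map (res K)
  let H' : Subgroup Kˣ := H.map (ι K : Lˣ →* Kˣ)
  have hneg' : (-1 : Kˣ) ∈ H' := ⟨-1, hneg, by ext; simp [ι]⟩
  have hV : symSet hn hζK H' ⊆ V := by
    rintro γ ⟨_, ⟨a, ha, rfl⟩, _, ⟨b, hb, rfl⟩, rfl⟩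
    exact ⟨symCl hn hζ a b, hH a ha b hb _ ((isSym_iff hn hζ _ _ _).2 rfl), res_symCl hn hζ a b⟩
  refine blocks_index hn hζK hp rfl s V H' hneg' hV N hN ?_ g hg x ?_ α ?_
  · rintro γ ⟨β, hβ, rfl⟩
    exact (hU β hβ).res hN
  · intro i
    obtain ⟨E, c, a, d, β, h1, h2, ha, h3, h4, h5⟩ := hx i
    refine ⟨E, fun j => ι K (a j), res K β, h1, fun j => ⟨a j, ha j, rfl⟩, ⟨β, h4, rfl⟩, ?_⟩
    have h6 : ∀ j k, c j k = symCl hn hζK (x i j) (x i k) := fun j k =>
      (isSym_iff hn hζK _ _ _).1 (h2 j k)
    have h7 : ∀ j, d j = symCl hn hζK (x i j) (ι K (a j)) := fun j =>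
      (isSym_iff hn hζK _ _ _).1 (h3 j)
    simp only [h6, h7] at h5
    exact h5
  · have hGH : G ≤ H' ⊔ Subgroup.closure (⋃ i, Set.range (x i)) := by
      rw [hG, Subgroup.closure_union]
      refine sup_le_sup_right ((Subgroup.closure_le _).2 ?_) _
      rintro y ⟨a, ha, rfl⟩
      exact ⟨a, ha, rfl⟩
    refine (Subgroup.closure_le _).2 ?_ hα
    rintro γ (⟨β, hβ, rfl⟩ | ⟨y, hy, z, hz, h⟩)
    · exact le_sup_left (a := V) ⟨β, hβ, rfl⟩
    · exact le_sup_right (a := V) (Subgroup.subset_closure
        ⟨y, hGH hy, z, hGH hz, (isSym_iff hn hζK y z γ).1 h⟩)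

end Pool.Agent.Results.MP_43d240_ag.AbelianFactors
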