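import Pool.Agent.TH439.PI8

/-!
# At least half of the Brauer classes of prime period on an abelian variety

Let `K` be a field with a primitive `p`-th root of unity, `p` a prime, in which `-1` is a `p`-th
power, and let `x j`, `j < 2 g`, be nonzero elements of `K`. For a matrix `M` with entries in
`ℤ / p` let `cls c M` be the product of the classes `(x j, x k) ^ (M j k)`, and let `B` be the group
of all these classes. A *relation* is a matrix `N` with `cls c N = 1`. If there is a relation `E` with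
`det (E - Eᵀ) ≠ 0`, then at least half of the elements of `B` have index dividing `p ^ (g - 1)`; more
relations give a larger proportion.

For varieties: `K` is the function field of an abelian variety `A` of dimension `g` over an
algebraically closed field `k`, and the `x j` are a basis of `H^1(A, μ_p)`. Then `B = Br(A)[p]`, and
the Riemann form modulo `p` of a line bundle is `E - Eᵀ` for a relation `E`. So if `A` has a
polarization of degree prime to `p`, then at least half of all classes `α` in `Br(A)` killed by `p`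
satisfy `ind(α) ∣ p ^ (g - 1)`.
-/

set_option autoImplicit false
set_option linter.all false

open scoped TensorProduct

namespace Pool.Agent.Results.MP_43d240_ag.HalfOfAbelianClasses

open Pool.Agent.Helper18.Br Pool.Agent.H552R3.SymBr Pool.Agent.H552R3.SymPred Pool.Agent.TH439.PI

universe u

/-- The product of the classes `c j k ^ (M j k)`. -/
def cls {B : Type u} [CommGroup B] {p m : ℕ} (c : Fin m → Fin m → B)
    (M : Matrix (Fin m) (Fin m) (ZMod p)) : B :=
  ∏ j, ∏ k, c j k ^ (M j k).val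

/-- The number of elements of `B` with index dividing `d`. -/
noncomputable def goodClasses {K : Type u} [Field K] (B : Subgroup (BrauerGroup.{u, u} K)) (d : ℕ) : ℕ :=
  Nat.card {β : BrauerGroup.{u, u} K // β ∈ B ∧ IndDvd β d}

/-- Let `p` be a prime, `K` a field with a primitive `p`-th root of unity in which `-1` is a `p`-th
power, `x j ∈ Kˣ` for `j < 2 g`, `g ≥ 1`, let `c j k` be the class of the symbol `(x j, x k)` of
degree `p`, and `B` the subgroup of `Br(K)` generated by the `c j k`; it is finite.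

(1) If `E` is a matrix with entries in `ℤ / p` such that `det (E - Eᵀ) ≠ 0` and the product of the
`c j k ^ (E j k)` is `1`, then at least half of the elements of `B` have index dividing `p ^ (g - 1)`.

(2) If `𝓝` is a group of matrices `N` such that the product of the `c j k ^ (N j k)` is `1`, and `𝒱` a
set of nonzero vectors with `(N - Nᵀ) v ≠ 0` for all `v` in `𝒱` and all nonzero `N` in `𝓝`, then the
proportion of the elements of `B` whose index divides `p ^ (g - 1)` is at least
`#𝒱 * #𝓝 / (p ^ (2 g) * (p + #𝓝))`. -/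
theorem result {K : Type u} [Field K] (p : ℕ) (hp : p.Prime) (ζ : K) (hζ : IsPrimitiveRoot ζ p)
    (i : K) (hi : i ^ p = -1) (g : ℕ) (hg : 0 < g) (x : Fin (2 * g) → Kˣ)
    (c : Fin (2 * g) → Fin (2 * g) → BrauerGroup.{u, u} K)
    (hc : ∀ j k, IsSym p ζ (x j) (x k) (c j k))
    (B : Subgroup (BrauerGroup.{u, u} K)) (hB : B = Subgroup.closure {γ | ∃ j k, γ = c j k}) :
    Finite B ∧
    (∀ E : Matrix (Fin (2 * g)) (Fin (2 * g)) (ZMod p), (E - E.transpose).det ≠ 0 → cls c E = 1 →
      Nat.card B ≤ 2 * goodClasses B (p ^ (g - 1))) ∧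
    (∀ (𝓝 : AddSubgroup (Matrix (Fin (2 * g)) (Fin (2 * g)) (ZMod p)))
      (𝒱 : Set (Fin (2 * g) → ZMod p)), (∀ N ∈ 𝓝, cls c N = 1) → (∀ v ∈ 𝒱, v ≠ 0) →
      (∀ N ∈ 𝓝, N ≠ 0 → ∀ v ∈ 𝒱, (N - N.transpose).mulVec v ≠ 0) →
      Nat.card 𝒱 * Nat.card 𝓝 * Nat.card B ≤
        p ^ (2 * g) * (p + Nat.card 𝓝) * goodClasses B (p ^ (g - 1))) := by
  classical
  have : Fact p.Prime := ⟨hp⟩
  have hn := hp.pos
  set f := linHom (sx hn hζ x) (sx_tors hn hζ x) with hf
  have hcs : ∀ j k, c j k = symCl hn hζ (x j) (x k) := fun j k => (isSym_iff hn hζ _ _ _).1 (hc j k)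
  have hcls : ∀ M, Additive.ofMul (cls c M) = f M := by
    intro M
    rw [cls, ofMul_prod, hf, linHom_apply]
    refine Finset.sum_congr rfl fun j _ => ?_
    rw [ofMul_prod]
    refine Finset.sum_congr rfl fun k _ => ?_
    rw [ofMul_pow, hcs]
    rfl
  have hmem : ∀ β : BrauerGroup.{u, u} K, β ∈ B ↔ Additive.ofMul β ∈ f.range := by
    intro β
    rw [hf, linHom_range, hB]
    have h1 : AddSubgroup.closure {b | ∃ j k, b = sx hn hζ x j k} =
        (Subgroup.closure {γ | ∃ j k, γ = c j k}).toAddSubgroup := by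
      rw [Subgroup.toAddSubgroup_closure]
      congr 1
      ext b
      constructor
      · rintro ⟨j, k, rfl⟩
        exact ⟨j, k, (hcs j k).symm⟩
      · rintro ⟨j, k, h⟩
        exact ⟨j, k, by rw [hcs] at h; exact congrArg Additive.ofMul h⟩
    rw [h1]
    exact Iff.rfl
  have hcardB : Nat.card B = Nat.card f.range :=
    Nat.card_congr (Additive.ofMul.subtypeEquiv hmem)
  have hgood : ∀ d, goodClasses B d =
      Nat.card {y : Additive (BrauerGroup.{u, u} K) // y ∈ f.range ∧ IndDvd y.toMul d} := by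
    intro d
    exact Nat.card_congr (Additive.ofMul.subtypeEquiv fun β => and_congr (hmem β) Iff.rfl)
  have hfin : Finite B := by
    have h1 : Finite f.range := Set.finite_range f
    exact Finite.of_equiv f.range (Additive.ofMul.subtypeEquiv hmem).symm
  -- the general inequality with the exact bound
  have key : ∀ (𝓝 : AddSubgroup (Matrix (Fin (2 * g)) (Fin (2 * g)) (ZMod p)))
      (𝒱 : Set (Fin (2 * g) → ZMod p)), (∀ N ∈ 𝓝, cls c N = 1) → (∀ v ∈ 𝒱, v ≠ 0) →
      (∀ N ∈ 𝓝, N ≠ 0 → ∀ v ∈ 𝒱, (N - N.transpose).mulVec v ≠ 0) →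
      Nat.card 𝒱 * Nat.card 𝓝 * Nat.card B ≤
        p * Qb p (2 * g) (Nat.card 𝓝) * goodClasses B (p ^ (g - 1)) := by
    intro 𝓝 𝒱 h1 h2 h3
    have h4 := count_main (F := ZMod p) (ι := Fin (2 * g)) (𝒱 := 𝒱.toFinset)
      (𝓝 := (𝓝 : Set (Matrix (Fin (2 * g)) (Fin (2 * g)) (ZMod p))).toFinset)
      (by rw [Fintype.card_fin]; omega)
      (fun v hv => h2 v (Set.mem_toFinset.1 hv))
      (fun N hN N' hN' hne v hv => h3 (N - N') (𝓝.sub_mem (Set.mem_toFinset.1 hN)
        (Set.mem_toFinset.1 hN')) (sub_ne_zero.2 hne) v (Set.mem_toFinset.1 hv))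
    rw [ZMod.card, Fintype.card_fin, ← Set.ncard_eq_toFinset_card', ← Set.ncard_eq_toFinset_card']
      at h4
    have h5 : Finset.univ.filter (fun M : Matrix (Fin (2 * g)) (Fin (2 * g)) (ZMod p) =>
        ∃ v ∈ 𝒱.toFinset, ∃ N ∈ (𝓝 : Set (Matrix (Fin (2 * g)) (Fin (2 * g)) (ZMod p))).toFinset,
          M ∈ Sv v N) ⊆ Finset.univ.filter (fun M => IndDvd (f M).toMul (p ^ (g - 1))) := by
      intro M hM
      rw [Finset.mem_filter] at hM ⊢
      obtain ⟨-, v, hv, N, hN, hMv⟩ := hM
      refine ⟨Finset.mem_univ _, index_of_degenerate hn hζ i hi x M N ?_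
        (h2 v (Set.mem_toFinset.1 hv)) (mem_Sv.1 hMv)⟩
      rw [← hf, ← hcls, h1 N (Set.mem_toFinset.1 hN)]
      rfl
    have h6 := card_transfer f (fun y => IndDvd y.toMul (p ^ (g - 1)))
      (h4.trans (Nat.mul_le_mul_left _ (Finset.card_le_card h5)))
    rw [hcardB, hgood]
    exact h6
  have hp2 : 2 ≤ p := hp.two_le
  refine ⟨hfin, ?_, ?_⟩
  · intro E hE hE1
    -- the multiples of `E`
    let 𝓝 : AddSubgroup (Matrix (Fin (2 * g)) (Fin (2 * g)) (ZMod p)) := AddSubgroup.zmultiples E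
    have hE0 : E ≠ 0 := by
      rintro rfl
      apply hE
      have : Nonempty (Fin (2 * g)) := ⟨⟨0, by omega⟩⟩
      rw [Matrix.transpose_zero, sub_zero, Matrix.det_zero]
    have hord : Nat.card 𝓝 = p := by
      rw [Nat.card_zmultiples]
      refine addOrderOf_eq_prime ?_ hE0
      ext j k
      rw [Matrix.smul_apply, nsmul_eq_mul, CharP.cast_eq_zero, zero_mul, Matrix.zero_apply]
    have h1 := key 𝓝 {v | v ≠ 0} ?_ (fun v hv => hv) ?_
    · rw [hord] at h1
      have h2 : Nat.card ({v | v ≠ 0} : Set (Fin (2 * g) → ZMod p)) = p ^ (2 * g) - 1 := by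
        have h3 : Nat.card {v : Fin (2 * g) → ZMod p // v ≠ 0} = p ^ (2 * g) - 1 := by
          rw [Nat.card_eq_fintype_card, Fintype.card_subtype_compl, Fintype.card_subtype_eq,
            Fintype.card_fun, ZMod.card, Fintype.card_fin]
        exact h3
      rw [h2] at h1
      have h3 : p * Qb p (2 * g) p ≤ p * (2 * (p ^ (2 * g) - 1)) := by
        refine Nat.mul_le_mul_left _ ?_
        obtain ⟨r, hr⟩ : ∃ r, 2 * g = r + 2 := ⟨2 * g - 2, by omega⟩
        obtain ⟨q, rfl⟩ : ∃ q, p = q + 2 := ⟨p - 2, by omega⟩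
        rw [hr, Qb]
        have e1 : r + 2 - 2 = r := by omega
        have e2 : r + 2 - 1 = r + 1 := by omega
        have e3 : q + 2 - 1 = q + 1 := by omega
        rw [e1, e2, e3]
        have hr1 : 1 ≤ (q + 2) ^ r := Nat.one_le_pow _ _ (by omega)
        obtain ⟨t, ht⟩ : ∃ t, (q + 2) ^ r = t + 1 := ⟨(q + 2) ^ r - 1, by omega⟩
        have e4 : (q + 2) ^ (r + 2) = (t + 1) * (q + 2) ^ 2 := by rw [pow_add, ht]
        have e5 : (q + 2) ^ (r + 1) = (t + 1) * (q + 2) := by rw [pow_succ, ht]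
        rw [e4, e5, ht]
        have e6 : (t + 1) * (q + 2) ^ 2 - (q + 2) = t * (q + 2) ^ 2 + (q + 2) * (q + 1) := by
          have : (t + 1) * (q + 2) ^ 2 = t * (q + 2) ^ 2 + (q + 2) * (q + 1) + (q + 2) := by ring
          omega
        have e7 : (t + 1) * (q + 2) - (q + 2) = t * (q + 2) := by
          have : (t + 1) * (q + 2) = t * (q + 2) + (q + 2) := by ring
          omega
        have e8 : (t + 1) * (q + 2) ^ 2 - 1 = t * (q + 2) ^ 2 + (q ^ 2 + 4 * q + 3) := by
          have : (t + 1) * (q + 2) ^ 2 = t * (q + 2) ^ 2 + (q ^ 2 + 4 * q + 3) + 1 := by ring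
          omega
        rw [e6, e7, e8]
        nlinarith [Nat.zero_le (t * q), Nat.zero_le t, Nat.zero_le q, Nat.zero_le (q ^ 2)]
      have h4 := h1.trans (Nat.mul_le_mul_right _ h3)
      have h5 : 0 < (p ^ (2 * g) - 1) * p := by
        have : 1 < p ^ (2 * g) := Nat.one_lt_pow (by omega) hp.one_lt
        exact Nat.mul_pos (by omega) hn
      refine Nat.le_of_mul_le_mul_left (c := (p ^ (2 * g) - 1) * p) ?_ h5
      calc (p ^ (2 * g) - 1) * p * Nat.card B ≤ p * (2 * (p ^ (2 * g) - 1)) *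
            goodClasses B (p ^ (g - 1)) := h4
        _ = (p ^ (2 * g) - 1) * p * (2 * goodClasses B (p ^ (g - 1))) := by ring
    · intro N hN
      have h2 : f N = 0 := by
        have h3 : f E = 0 := by rw [← hcls, hE1]; rfl
        obtain ⟨z, rfl⟩ := AddSubgroup.mem_zmultiples_iff.1 hN
        rw [map_zsmul, h3, smul_zero]
      rw [← hcls] at h2
      exact h2
    · intro N hN hN0 v hv h0
      obtain ⟨z, rfl⟩ := AddSubgroup.mem_zmultiples_iff.1 hN
      have h2 : (z • E - (z • E).transpose) = ((z : ZMod p)) • (E - E.transpose) := by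
        rw [Matrix.transpose_smul, ← smul_sub, Int.cast_smul_eq_zsmul]
      rw [h2, Matrix.smul_mulVec, smul_eq_zero] at h0
      rcases h0 with h0 | h0
      · apply hN0
        ext j k
        rw [Matrix.smul_apply, zsmul_eq_mul, h0, zero_mul, Matrix.zero_apply]
      · exact hv (Matrix.eq_zero_of_mulVec_eq_zero hE h0)
  · intro 𝓝 𝒱 h1 h2 h3
    refine (key 𝓝 𝒱 h1 h2 h3).trans (Nat.mul_le_mul_right _ ?_)
    have hs : 1 ≤ Nat.card 𝓝 := Nat.card_pos
    obtain ⟨s, hs'⟩ : ∃ s, Nat.card 𝓝 = s + 1 := ⟨Nat.card 𝓝 - 1, by omega⟩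
    obtain ⟨r, hr⟩ : ∃ r, 2 * g = r + 2 := ⟨2 * g - 2, by omega⟩
    rw [hs', hr, Qb]
    have e1 : r + 2 - 2 = r := by omega
    have e2 : r + 2 - 1 = r + 1 := by omega
    rw [e1, e2, Nat.add_sub_cancel]
    have e3 : p ^ (r + 2) = p * p ^ (r + 1) := by rw [pow_succ' p (r + 1)]
    rw [e3, mul_assoc p (p ^ (r + 1))]
    refine Nat.mul_le_mul_left _ ?_
    have e4 : p ^ r * (p - 1) ≤ p ^ (r + 1) := by
      rw [pow_succ]
      exact Nat.mul_le_mul_left _ (Nat.sub_le _ _)
    have e5 : s * (p ^ (r + 1) - p) ≤ s * p ^ (r + 1) := Nat.mul_le_mul_left _ (Nat.sub_le _ _)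
    have e6 : p * p ^ (r + 1) - p ≤ p * p ^ (r + 1) := Nat.sub_le _ _
    have e7 : p ^ (r + 1) * (p + (s + 1)) = p * p ^ (r + 1) + p ^ (r + 1) + s * p ^ (r + 1) := by ring
    rw [e7]
    exact add_le_add (add_le_add e6 e4) e5

end Pool.Agent.Results.MP_43d240_ag.HalfOfAbelianClasses
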