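import Pool.Agent.TH439.PI5

/-!
# The index of Brauer classes on products

Let `L 0, ..., L m` be extensions of a field `k` with a primitive `n`-th root of unity, all mapped to
a field `K`, and let `U j` be a group of Brauer classes of `L j` with indices dividing `N j`. Let `H`
be a subgroup of `(L 0)ˣ` with all symbols of degree `n` in `U 0`, and let `(e i, f i)`, `i < s`, be
pairs of nonzero elements of `L (t i)` whose symbols of degree `n` are in `U (t i)`. Then all classes
in `Br(K)` generated by the `U j` and by the symbols with entries in the group generated by `H`, the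
`e i` and the `f i` have index dividing `n ^ s * ∏ j, N j`.

For varieties: `K` is the function field of `X = Y_0 × ... × Y_m`, `L j` that of `Y_j`, `U j` the group
of the (unramified) classes killed by `n`, `H` the group of the functions whose divisor is divisible
by `n`, and for `j > 0` the group `Pic(Y_j)[n]` is generated by the divisors, divided by `n`, of the
`e i`, `f i` with `t i = j`. By the Kummer sequence and the Künneth formula the unramified classes of
`X` killed by `n` are generated as above. If the `Y_j` are surfaces, `N j = n` by the theorem of de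
Jong; so if one pair for each `j > 0` suffices, the index divides
`n ^ (2 m + 1) = n ^ (dim X - 1)`.
-/

set_option autoImplicit false
set_option linter.all false

open scoped TensorProduct

namespace Pool.Agent.Results.MP_43d240_ag.ProductsOfSurfaces

open Pool.Agent.Helper18.Br Pool.Agent.H552R3.SymBr Pool.Agent.H552R3.SymPred Pool.Agent.TH439.PI

universe u

/-- The map `Lˣ → Kˣ` for an extension `K` of `L`. -/
def up {L : Type u} (K : Type u) [Field L] [Field K] [Algebra L K] : Lˣ →* Kˣ :=
  Units.map (algebraMap L K : L →* K)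

/-- The subgroup `U` of `Br(L)` contains the classes of all symbols of degree `n` with entries in
the set `S` of nonzero elements of `L`. -/
def SymbolsIn {L : Type u} [Field L] (n : ℕ) (ζ : L) (S : Set Lˣ)
    (U : Subgroup (BrauerGroup.{u, u} L)) : Prop :=
  ∀ a ∈ S, ∀ b ∈ S, ∀ β, IsSym n ζ a b β → β ∈ U

section gen

variable {K : Type u} [Field K] {m s : ℕ} {L : Fin (m + 1) → Type u} [∀ j, Field (L j)]
  [∀ j, Algebra (L j) K]

/-- The subgroup of `Kˣ` generated by the images of `H` and of the `e i`, `f i`. -/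
def entries (K : Type u) [Field K] [∀ j, Algebra (L j) K] (H : Subgroup (L 0)ˣ)
    (t : Fin s → Fin (m + 1)) (e f : ∀ i, (L (t i))ˣ) : Subgroup Kˣ :=
  Subgroup.closure ({x | ∃ h ∈ H, x = up K h} ∪ {x | ∃ i, x = up K (e i) ∨ x = up K (f i)})

/-- The subgroup of `Br(K)` generated by the restrictions of the elements of the `U j` and by the
classes of all symbols of degree `n` with entries in `G`. -/
def classes (n : ℕ) (ζ : K) (U : ∀ j, Subgroup (BrauerGroup.{u, u} (L j))) (G : Subgroup Kˣ) :
    Subgroup (BrauerGroup.{u, u} K) :=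
  Subgroup.closure ({γ | ∃ j, ∃ β ∈ U j, γ = res K β} ∪ {γ | ∃ y ∈ G, ∃ z ∈ G, IsSym n ζ y z γ})

end gen

/-- Let `k` be a field with a primitive `n`-th root of unity, and let `L j`, `j ≤ m`, be extensions of
`k` with `k`-embeddings in the field `K`. Let `U j` be a subgroup of `Br(L j)` whose elements have
index dividing `N j`. Let `H` be a subgroup of `(L 0)ˣ` containing `-1` such that `U 0` contains the
classes of the symbols of degree `n` with entries in `H`, and let `e i, f i`, `i < s`, be pairs of
nonzero elements of `L (t i)` such that `U (t i)` contains the class of the symbol `(e i, f i)` of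
degree `n`. Then every class in the subgroup of `Br(K)` generated by the restrictions of the elements
of the `U j` and by the classes of all symbols of degree `n` with entries in the group generated by
`H` and all `e i`, `f i` has index dividing `n ^ s * ∏ j, N j`. -/
theorem result {k K : Type u} [Field k] [Field K] [Algebra k K] (n : ℕ) (hn : 0 < n) (ζ : k)
    (hζ : IsPrimitiveRoot ζ n) (m : ℕ) (L : Fin (m + 1) → Type u) [∀ j, Field (L j)]
    [∀ j, Algebra k (L j)] [∀ j, Algebra (L j) K] [∀ j, IsScalarTower k (L j) K]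
    (U : ∀ j, Subgroup (BrauerGroup.{u, u} (L j))) (N : Fin (m + 1) → ℕ) (hN : ∀ j, 0 < N j)
    (hU : ∀ j, ∀ β ∈ U j, IndDvd β (N j)) (H : Subgroup (L 0)ˣ) (hneg : -1 ∈ H)
    (hH : SymbolsIn n (algebraMap k (L 0) ζ) H (U 0))
    (s : ℕ) (t : Fin s → Fin (m + 1)) (e f : ∀ i, (L (t i))ˣ)
    (hef : ∀ i β, IsSym n (algebraMap k (L (t i)) ζ) (e i) (f i) β → β ∈ U (t i))
    (α : BrauerGroup.{u, u} K)
    (hα : α ∈ classes n (algebraMap k K ζ) U (entries K H t e f)) :
    IndDvd α (n ^ s * ∏ j, N j) := by
  have hζK : IsPrimitiveRoot (algebraMap k K ζ) n := rootK K hζ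
  have hζL : ∀ j, IsPrimitiveRoot (algebraMap k (L j) ζ) n := fun j => rootK (L j) hζ
  have hcl : ∀ j (a b : (L j)ˣ), res K (symCl hn (hζL j) a b) =
      symCl hn hζK (ι K a) (ι K b) := by
    intro j a b
    rw [res_symCl]
    congr 1
    exact (IsScalarTower.algebraMap_apply k (L j) K ζ).symm
  let V : Subgroup (BrauerGroup.{u, u} K) := ⨆ j, (U j).map (res K)
  let H' : Subgroup Kˣ := H.map (ι K)
  have hV0 : ∀ j, (U j).map (res K) ≤ V := fun j => le_iSup (fun j => (U j).map (res K)) j
  have hV : symSet hn hζK H' ⊆ V := by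
    rintro γ ⟨_, ⟨a, ha, rfl⟩, _, ⟨b, hb, rfl⟩, rfl⟩
    rw [← hcl 0]
    exact hV0 0 ⟨_, hH a ha b hb _ ((isSym_iff hn (hζL 0) _ _ _).2 rfl), rfl⟩
  have hind : ∀ β ∈ V, IndDvd β (∏ j, N j) := by
    refine iSup_index (m + 1) (fun j => (U j).map (res K)) N hN fun j => ?_
    rintro _ ⟨β, hβ, rfl⟩
    exact (hU j β hβ).res (hN j)
  refine main_index hn hζK s V H' ⟨-1, hneg, by ext; simp [ι]⟩ hV _
    (Finset.prod_pos fun j _ => hN j) hind (fun i => ι K (e i)) (fun i => ι K (f i)) ?_ α ?_
  · intro i
    refine ⟨1, H'.one_mem, 1, H'.one_mem, symCl hn hζK (ι K (e i)) (ι K (f i)), ?_, ?_⟩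
    · rw [← hcl (t i)]
      exact hV0 (t i) ⟨_, hef i _ ((isSym_iff hn (hζL (t i)) _ _ _).2 rfl), rfl⟩
    · rw [symCl_one_right, symCl_one_right, one_mul, one_mul]
  · have hGH : entries K H t e f ≤ H' ⊔ Subgroup.closure
        (Set.range (fun i => ι K (e i)) ∪ Set.range (fun i => ι K (f i))) := by
      rw [entries, Subgroup.closure_le]
      rintro x (⟨h, hh, rfl⟩ | ⟨i, rfl | rfl⟩)
      · exact le_sup_left (a := H') ⟨h, hh, rfl⟩
      · exact le_sup_right (a := H') (Subgroup.subset_closure (Or.inl ⟨i, rfl⟩))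
      · exact le_sup_right (a := H') (Subgroup.subset_closure (Or.inr ⟨i, rfl⟩))
    refine (Subgroup.closure_le _).2 ?_ hα
    rintro γ (⟨j, β, hβ, rfl⟩ | ⟨y, hy, z, hz, h⟩)
    · exact le_sup_left (a := V) (hV0 j ⟨β, hβ, rfl⟩)
    · exact le_sup_right (a := V) (Subgroup.subset_closure
        ⟨y, hGH hy, z, hGH hz, (isSym_iff hn hζK y z γ).1 h⟩)

end Pool.Agent.Results.MP_43d240_ag.ProductsOfSurfaces
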