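import Pool.Agent.TH439.PI12

/-!
# Brauer classes on abelian varieties with a factor with real multiplication

Let `n = p ^ e` be a prime power, `K` a field with a primitive `n`-th root of unity in which `-1` is
an `n`-th power, and `x j`, `j < 2 g`, nonzero elements of `K`. An integral matrix `N` is a
relation of the `x j` if the product of the classes of the symbols `(x j, x k)` of degree `n` with
exponents `N j k` is `1`. The block `x` is polarized if it has a relation `N` with `det (N - Nᵀ)` prime
to `p`. It has real multiplication if there are a reduced commutative algebra `O` of dimension `g` over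
`ℤ / p`, an injective homomorphism `ρ` from `O` to the matrices of size `2 g`, and an invertible
matrix `E`, such that each `E * ρ a` is the alternating part modulo `p` of a relation.

Theorem: let `x` be a block with real multiplication and `e = 1`, or a polarized block with `g = 1`
and any `e`. Let `y l` be polarized blocks with `2 h l` elements, `h l < p`. Then all classes in the
group generated by the symbols of degree `n` with entries in the group generated by `x` and the `y l`
are products of `g - 1 + ∑ l, h l` symbols of degree `n`, and the index divides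
`n ^ (g - 1 + ∑ l, h l)`.

For varieties: `K` is the function field of an abelian variety `A` over an algebraically closed field
`k`, and all the `x j`, `y l j` together are a basis of `H^1(A, μ_n)`, `p ≠ char k`; so the
group of classes is the group of all classes in `Br(A)` killed by `n`. The Riemann form of a line
bundle is the alternating part of a relation, as the class of a divisor vanishes in the Brauer group.

* `n = p`: let `A` be `A_0 × A'` up to an isogeny of degree prime to `p`, where `A_0` of dimension `g`
  has a polarization `λ` of degree prime to `p` and an order `R` of rank `g` in a product of totally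
  real fields acts by endomorphisms fixed by the Rosati involution, `O = R / p` is reduced, and `A'`
  is a product of abelian varieties of dimensions less than `p` with polarizations of degree prime to
  `p`. The matrix `E * ρ a` is the Riemann form of `λ a`.
* `n = p ^ e`: if `R` has a maximal ideal of residue field `ℤ / p` over `p`, the Tate module of `A` is
  the direct sum of a part of rank two and a part of rank `2 dim A - 2`, and both blocks are
  polarized.

The proof for real multiplication: for an alternating form `D` we look for `a` in `O` and a nonzero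
vector in the kernel of `D + E * ρ a`. The equations `D (v, b v) = 0` for all `b` in `O` are `g - 1`
quadratic equations in `2 g` variables; by the theorem of Chevalley and Warning, applied to all the
direct factors of `O`, the number of solutions `v` of full support is not divisible by `p`, and
such a `v` is in the kernel of `D + E * ρ a` for some `a`.
-/

set_option autoImplicit false
set_option linter.all false

open scoped TensorProduct

namespace Pool.Agent.Results.MP_43d240_ag.RealMultiplication

open Pool.Agent.Helper18.Br Pool.Agent.H552R3.SymBr Pool.Agent.H552R3.SymPred Pool.Agent.TH439.PI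

universe u

section defs

variable {K : Type u} [Field K]

/-- The product of the classes of the symbols `(x j, x k)` of degree `n` with exponents `N j k` is
`1`. -/
def IsRelation (n : ℕ) (ζ : K) {m : ℕ} (x : Fin m → Kˣ) (N : Matrix (Fin m) (Fin m) ℤ) : Prop :=
  ∃ c : Fin m → Fin m → BrauerGroup.{u, u} K, (∀ j k, IsSym n ζ (x j) (x k) (c j k)) ∧
    ∏ j, ∏ k, c j k ^ N j k = 1

/-- There is a relation `N` with `det (N - Nᵀ)` prime to `p`. -/
def Polarized (p n : ℕ) (ζ : K) {m : ℕ} (x : Fin m → Kˣ) : Prop :=
  ∃ N : Matrix (Fin m) (Fin m) ℤ, ¬ (p : ℤ) ∣ (N - N.transpose).det ∧ IsRelation n ζ x N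

/-- There are a reduced commutative algebra `O` over `ℤ / p` of dimension `g`, an injective
homomorphism `ρ` from `O` to the matrices of size `2 g`, and a matrix `E` with `det E ≠ 0`, such that
for every `a` in `O` there is a relation `N` with `N - Nᵀ` congruent to `E * ρ a` modulo `p`. -/
def HasRealMultiplication (p n : ℕ) (ζ : K) {g : ℕ} (x : Fin (2 * g) → Kˣ) : Prop :=
  ∃ (O : Type) (_ : CommRing O) (_ : Algebra (ZMod p) O)
    (ρ : O →ₐ[ZMod p] Matrix (Fin (2 * g)) (Fin (2 * g)) (ZMod p))
    (E : Matrix (Fin (2 * g)) (Fin (2 * g)) (ZMod p)),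
    IsReduced O ∧ Module.finrank (ZMod p) O = g ∧ Function.Injective ρ ∧ E.det ≠ 0 ∧
      ∀ a : O, ∃ N : Matrix (Fin (2 * g)) (Fin (2 * g)) ℤ,
        (N - N.transpose).map (fun z : ℤ => (z : ZMod p)) = E * ρ a ∧ IsRelation n ζ x N

/-- `α` is a product of `N` classes of symbols of degree `n`. -/
def IsProductOfSymbols (n : ℕ) (ζ : K) (α : BrauerGroup.{u, u} K) (N : ℕ) : Prop :=
  ∃ s : List (BrauerGroup.{u, u} K), s.length = N ∧ (∀ γ ∈ s, ∃ a b : Kˣ, IsSym n ζ a b γ) ∧
    s.prod = α

end defs

/-- Let `p` be a prime, `n = p ^ e`, `K` a field with a primitive `n`-th root of unity in which `-1`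
is an `n`-th power, `x` a block of `2 g` elements of `Kˣ`, `g ≥ 1`, which has real multiplication if
`e = 1`, or is polarized with `g = 1`, and `y l`, `l < s`, polarized blocks of `2 h l` elements of
`Kˣ`, `h l < p`. Then every class `α` in the subgroup of `Br(K)` generated by the classes of the
symbols of degree `n` with entries in the group `G` generated by all elements of all the blocks is a
product of `g - 1 + ∑ l, h l` classes of symbols of degree `n`, and the index of `α` divides
`n ^ (g - 1 + ∑ l, h l)`. -/
theorem result {K : Type u} [Field K] (p e : ℕ) (hp : p.Prime) (ζ : K)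
    (hζ : IsPrimitiveRoot ζ (p ^ e)) (i : K) (hi : i ^ (p ^ e) = -1) (g : ℕ) (hg : 0 < g)
    (x : Fin (2 * g) → Kˣ)
    (hx : (e = 1 ∧ HasRealMultiplication p (p ^ e) ζ x) ∨ (g = 1 ∧ Polarized p (p ^ e) ζ x))
    (s : ℕ) (h : Fin s → ℕ) (hh : ∀ l, h l < p) (y : ∀ l, Fin (2 * h l) → Kˣ)
    (hy : ∀ l, Polarized p (p ^ e) ζ (y l))
    (G : Subgroup Kˣ) (hG : G = Subgroup.closure (Set.range x ∪ ⋃ l, Set.range (y l)))
    (α : BrauerGroup.{u, u} K)
    (hα : α ∈ Subgroup.closure {γ | ∃ u ∈ G, ∃ v ∈ G, IsSym (p ^ e) ζ u v γ}) :
    IsProductOfSymbols (p ^ e) ζ α (g - 1 + ∑ l, h l) ∧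
      IndDvd α ((p ^ e) ^ (g - 1 + ∑ l, h l)) := by
  have : Fact p.Prime := ⟨hp⟩
  have hn : 0 < p ^ e := pow_pos hp.pos e
  let V : Subgroup (BrauerGroup.{u, u} K) :=
    Subgroup.closure {γ | ∃ j k, γ = symCl hn hζ (x j) (x k)}
  let H : Subgroup Kˣ := Subgroup.closure (Set.range x ∪ {-1})
  have hneg : (-1 : Kˣ) ∈ H := Subgroup.subset_closure (Or.inr rfl)
  have hV : symSet hn hζ H ⊆ V := by
    refine symSet_closure hn hζ V _ ?_
    rintro a ha b (⟨k, rfl⟩ | hb)
    · rcases ha with ⟨j, rfl⟩ | ha
      · exact Subgroup.subset_closure ⟨j, k, rfl⟩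
      · rw [Set.mem_singleton_iff] at ha
        rw [ha, symCl_anti, symCl_neg_one hn hζ i hi, inv_one]
        exact V.one_mem
    · rw [Set.mem_singleton_iff] at hb
      rw [hb, symCl_neg_one hn hζ i hi]
      exact V.one_mem
  -- relations
  have hrel : ∀ {m : ℕ} (z : Fin m → Kˣ) (N : Matrix (Fin m) (Fin m) ℤ),
      IsRelation (p ^ e) ζ z N → ∏ j, ∏ k, symCl hn hζ (z j) (z k) ^ N j k = 1 := by
    rintro m z N ⟨c, hc, h1⟩
    rw [← h1]
    refine Finset.prod_congr rfl fun j _ => Finset.prod_congr rfl fun k _ => ?_
    rw [(isSym_iff hn hζ _ _ _).1 (hc j k)]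
  -- the base
  have hbase : ∀ β ∈ V, SymLen hn hζ β (g - 1) := by
    intro β hβ
    rcases hx with ⟨he, O, _, _, ρ, E, hred, hO, hρ, hE, hr⟩ | ⟨hg1, N, hN, hr⟩
    · refine rm_len' (by rw [he, pow_one]) hn hζ i hi hg x hO ρ hρ E hE (fun a => ?_) β hβ
      obtain ⟨N, h1, h2⟩ := hr a
      exact ⟨N, h1, hrel x N h2⟩
    · have h1 := pol_two hp hn hζ i hi (by rw [hg1]) x N hN (hrel x N hr)
      have h2 : V = ⊥ := by
        rw [eq_bot_iff]
        refine (Subgroup.closure_le _).2 ?_
        rintro _ ⟨j, k, rfl⟩
        exact Subgroup.mem_bot.2 (h1 j k)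
      rw [h2, Subgroup.mem_bot] at hβ
      rw [hβ, hg1]
      exact ⟨[], rfl, fun γ hγ => absurd hγ List.not_mem_nil, rfl⟩
  have hlen : SymLen hn hζ α (g - 1 + ∑ l, h l) := by
    refine blocks_len hn hζ hp rfl s V H hneg hV (g - 1) hbase h hh y (fun l => ?_) α ?_
    · obtain ⟨N, hN, hr⟩ := hy l
      refine ⟨N, fun _ => 1, 1, hN, fun _ => H.one_mem, V.one_mem, ?_⟩
      rw [hrel (y l) N hr, mul_one]
      exact (Finset.prod_eq_one fun j _ => symCl_one_right hn hζ _).symm
    · have hGH : G ≤ H ⊔ Subgroup.closure (⋃ l, Set.range (y l)) := by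
        rw [hG, Subgroup.closure_union]
        refine sup_le_sup_right (Subgroup.closure_mono Set.subset_union_left) _
      refine (Subgroup.closure_le _).2 ?_ hα
      rintro γ ⟨u, hu, v, hv, hγ⟩
      exact le_sup_right (a := V) (Subgroup.subset_closure
        ⟨u, hGH hu, v, hGH hv, (isSym_iff hn hζ u v γ).1 hγ⟩)
  refine ⟨?_, hlen.hasRep.indDvd⟩
  obtain ⟨t, ht, ht1, ht2⟩ := hlen
  refine ⟨t, ht, fun γ hγ => ?_, ht2⟩
  obtain ⟨a, b, hab⟩ := ht1 γ hγ
  exact ⟨a, b, (isSym_iff hn hζ a b γ).2 hab⟩

end Pool.Agent.Results.MP_43d240_ag.RealMultiplication
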